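import Pool.Agent.helper80.SG.Spec

/-!
# Project sg: (MP_b5a345_ag), module CFN
-/

set_option autoImplicit false
set_option linter.unusedSectionVars false

namespace Pool.Agent.SG

open MvPolynomial Module Pool.Agent.SV

theorem CFN : CFN_stmt := by
  intro C _ _ b
  have e : Fin (∑ v, b v) ≃ (Σ v, Fin (b v)) := Fintype.equivOfCardEq (by simp)
  refine ⟨fun l => (e l).1, fun v => ?_⟩
  have h1 : (Finset.univ.filter (fun l => (e l).1 = v)).card =
      Fintype.card {l : Fin (∑ v, b v) // (e l).1 = v} := (Fintype.card_subtype _).symm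
  rw [h1]
  have e1 : {l : Fin (∑ v, b v) // (e l).1 = v} ≃ {s : (Σ v, Fin (b v)) // s.1 = v} :=
    e.subtypeEquiv (fun l => Iff.rfl)
  have e2 : {s : (Σ v, Fin (b v)) // s.1 = v} ≃ Fin (b v) := Equiv.sigmaSubtype v
  rw [Fintype.card_congr (e1.trans e2), Fintype.card_fin]

end Pool.Agent.SG
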