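import Pool.Agent.helper48.SG.SpecH

/-!
# Project sg: (MP_2b8aea_gt), module H02: the visual measure seen from a point near `u`
-/

set_option autoImplicit false

open MeasureTheory Set Metric Filter Topology
open scoped ENNReal NNReal ComplexConjugate

namespace Pool.Agent.SG

theorem H02 (hB06 : B06_stmt) (hB18 : B18_stmt) (hB03 : B03_stmt) : H02_stmt := by
  intro Γ _ A u c s x E hu hc hsc hHu hE hEf
  have hk : 0 < A.kk x := ((hB03 Γ A).1 x).1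
  have hkd : A.kk x = 1 - ‖A.pt x‖ ^ 2 := rfl
  have hHu0 : 0 ≤ A.Hu u x := by
    unfold DiscRep.Hu
    positivity
  have hs0 : 0 ≤ s := hHu0.trans hHu
  rcases E.eq_empty_or_nonempty with rfl | ⟨ξ₀, hξ₀⟩
  · have h1 : sg u ∅ = 0 := by unfold sg; simp
    rw [h1, measure_empty, measure_empty]
    simp
  have hξ₀' := hEf hξ₀
  have hc2 : c ≤ 2 := by
    have h1 : ‖ξ₀‖ = 1 := by simpa [circ] using hξ₀'.1
    have h2 : ‖ξ₀ - u‖ ≤ ‖ξ₀‖ + ‖u‖ := norm_sub_le _ _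
    have h3 := hξ₀'.2
    linarith
  have hHu1 : A.Hu u x ≤ 1 := by linarith
  have hPu : ‖u - A.pt x‖ ≤ 2 * s := by
    have := ((hB18 Γ A u hu).2.2.1 x hHu1).2.2.1
    linarith
  obtain ⟨ε, hε⟩ : ∃ ε : ℝ, ε = 2 * s / c := ⟨_, rfl⟩
  have hε0 : 0 ≤ ε := by rw [hε]; positivity
  have hε1 : ε ≤ 1 / 4 := by
    rw [hε, div_le_iff₀ hc]
    linarith
  have hεc : ε * c = 2 * s := by
    rw [hε]
    field_simp
  -- distances
  have hdist : ∀ ξ ∈ E, c ≤ ‖ξ - u‖ ∧ ‖ξ - u‖ ≤ 2 ∧ ‖ξ - u‖ * (1 - ε) ≤ ‖ξ - A.pt x‖ ∧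
      ‖ξ - A.pt x‖ ≤ ‖ξ - u‖ * (1 + ε) := by
    intro ξ hξ
    have hξ' := hEf hξ
    have h1 : ‖ξ‖ = 1 := by simpa [circ] using hξ'.1
    have h2 : ‖ξ - u‖ ≤ ‖ξ‖ + ‖u‖ := norm_sub_le _ _
    have h3 : c ≤ ‖ξ - u‖ := hξ'.2
    have h4 : 2 * s ≤ ε * ‖ξ - u‖ := by
      rw [← hεc]
      exact mul_le_mul_of_nonneg_left h3 hε0
    have h5 : ‖ξ - u‖ ≤ ‖ξ - A.pt x‖ + ‖u - A.pt x‖ := by
      have h6 : ξ - u = (ξ - A.pt x) - (u - A.pt x) := by ring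
      rw [h6]
      exact norm_sub_le _ _
    have h7 : ‖ξ - A.pt x‖ ≤ ‖ξ - u‖ + ‖u - A.pt x‖ := by
      have h8 : ξ - A.pt x = (ξ - u) + (u - A.pt x) := by ring
      rw [h8]
      exact norm_add_le _ _
    refine ⟨h3, by linarith, by nlinarith, by nlinarith⟩
  have hlax : lax A x E = ∫⁻ ξ in E, ENNReal.ofReal (poi (A.pt x) ξ) ∂lam := by
    rw [hB06 Γ A x, withDensity_apply _ hE]
  have hup : ∀ ξ ∈ E, ENNReal.ofReal (poi (A.pt x) ξ) ≤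
      ENNReal.ofReal (A.kk x / (1 - ε) ^ 2) * ENNReal.ofReal (1 / ‖ξ - u‖ ^ 2) := by
    intro ξ hξ
    obtain ⟨h1, -, h3, -⟩ := hdist ξ hξ
    have hd : 0 < ‖ξ - u‖ := lt_of_lt_of_le hc h1
    have h1ε : 0 < 1 - ε := by linarith
    rw [← ENNReal.ofReal_mul (by positivity)]
    apply ENNReal.ofReal_le_ofReal
    have h4 : poi (A.pt x) ξ = A.kk x / ‖ξ - A.pt x‖ ^ 2 := rfl
    have h5 : A.kk x / (1 - ε) ^ 2 * (1 / ‖ξ - u‖ ^ 2) = A.kk x / (‖ξ - u‖ * (1 - ε)) ^ 2 := by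
      field_simp
    rw [h4, h5]
    exact div_le_div_of_nonneg_left hk.le (by positivity)
      (pow_le_pow_left₀ (by positivity) h3 2)
  have hlo : ∀ ξ ∈ E, ENNReal.ofReal (A.kk x / (1 + ε) ^ 2) * ENNReal.ofReal (1 / ‖ξ - u‖ ^ 2) ≤
      ENNReal.ofReal (poi (A.pt x) ξ) := by
    intro ξ hξ
    obtain ⟨h1, -, h3, h3'⟩ := hdist ξ hξ
    have hd : 0 < ‖ξ - u‖ := lt_of_lt_of_le hc h1
    have h1ε : 0 < 1 + ε := by linarith
    have h1ε' : 0 < 1 - ε := by linarith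
    have hd2 : 0 < ‖ξ - A.pt x‖ := lt_of_lt_of_le (by positivity) h3
    rw [← ENNReal.ofReal_mul (by positivity)]
    apply ENNReal.ofReal_le_ofReal
    have h4 : poi (A.pt x) ξ = A.kk x / ‖ξ - A.pt x‖ ^ 2 := rfl
    have h5 : A.kk x / (1 + ε) ^ 2 * (1 / ‖ξ - u‖ ^ 2) = A.kk x / (‖ξ - u‖ * (1 + ε)) ^ 2 := by
      field_simp
    rw [h4, h5]
    exact div_le_div_of_nonneg_left hk.le (by positivity)
      (pow_le_pow_left₀ hd2.le h3' 2)
  have hU : lax A x E ≤ ENNReal.ofReal (A.kk x / (1 - ε) ^ 2) * sg u E := by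
    rw [hlax]
    unfold sg
    rw [← lintegral_const_mul' _ _ ENNReal.ofReal_ne_top]
    exact setLIntegral_mono' hE hup
  have hL : ENNReal.ofReal (A.kk x / (1 + ε) ^ 2) * sg u E ≤ lax A x E := by
    rw [hlax]
    unfold sg
    rw [← lintegral_const_mul' _ _ ENNReal.ofReal_ne_top]
    exact setLIntegral_mono' hE hlo
  have hc1 : A.kk x / (1 - ε) ^ 2 ≤ 2 * A.kk x := by
    have h1 : (0 : ℝ) < (1 - ε) ^ 2 := by
      have : 0 < 1 - ε := by linarith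
      positivity
    rw [div_le_iff₀ h1]
    have h2 : (1 / 2 : ℝ) ≤ (1 - ε) ^ 2 := by nlinarith
    nlinarith
  have hc1' : A.kk x / 2 ≤ A.kk x / (1 + ε) ^ 2 := by
    have h2 : (1 + ε) ^ 2 ≤ 2 := by nlinarith
    exact div_le_div_of_nonneg_left hk.le (by positivity) h2
  rw [← hε]
  refine ⟨hU, hL, ?_, ?_, ?_, ?_⟩
  · exact hU.trans (mul_le_mul_left (ENNReal.ofReal_le_ofReal hc1) _)
  · exact (mul_le_mul_left (ENNReal.ofReal_le_ofReal hc1') _).trans hL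
  · rw [← setLIntegral_const]
    unfold sg
    refine setLIntegral_mono' hE fun ξ hξ => ENNReal.ofReal_le_ofReal ?_
    obtain ⟨h1, -, -, -⟩ := hdist ξ hξ
    exact one_div_le_one_div_of_le (by positivity) (pow_le_pow_left₀ hc.le h1 2)
  · rw [← setLIntegral_const]
    unfold sg
    refine setLIntegral_mono' hE fun ξ hξ => ENNReal.ofReal_le_ofReal ?_
    obtain ⟨h1, h2, -, -⟩ := hdist ξ hξ
    have hd : 0 < ‖ξ - u‖ := lt_of_lt_of_le hc h1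
    have h3 : ‖ξ - u‖ ^ 2 ≤ 4 := by nlinarith
    exact one_div_le_one_div_of_le (by positivity) h3

end Pool.Agent.SG
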