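import Pool.Agent.helper56.SG.SpecG

/-!
# Project sg: (MP_2b8aea_gt), module HRM: from discs to the unit disc
-/

set_option autoImplicit false

open MeasureTheory Set Metric Filter Topology
open scoped ENNReal NNReal ComplexConjugate
open Pool.Agent.SG

noncomputable section

namespace Pool.Agent.SGG

theorem HRM : HRM_stmt := by
  intro W hW
  have hharm : InnerProductSpace.HarmonicOnNhd W (ball (0 : ℂ) 1) := by
    intro z hz
    have hz1 : ‖z‖ < 1 := by simpa using hz
    obtain ⟨r, hr1, hr2⟩ := exists_between hz1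
    have hr0 : 0 < r := lt_of_le_of_lt (norm_nonneg z) hr1
    obtain ⟨F, hF, hFW⟩ := hW r hr0 hr2
    have hzr : z ∈ ball (0 : ℂ) r := by simpa using hr1
    have hA : AnalyticAt ℂ F z := (hF.analyticOnNhd isOpen_ball) z hzr
    have h1 := hA.harmonicAt_re
    refine (InnerProductSpace.harmonicAt_congr_nhds ?_).1 h1
    filter_upwards [isOpen_ball.mem_nhds hzr] with w hw
    exact hFW w hw
  obtain ⟨F, hF, hFW⟩ := hharm.exists_analyticOnNhd_ball_re_eq
  exact ⟨F, hF.differentiableOn, fun z hz => hFW hz⟩

end Pool.Agent.SGG
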