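import Pool.Agent.helper56.SG.SpecG

/-!
# Project sg: (MP_2b8aea_gt), module KCT: continuity of `KK t u`
-/

set_option autoImplicit false

open MeasureTheory Set Metric Filter Topology
open scoped ENNReal NNReal ComplexConjugate
open Pool.Agent.SG

noncomputable section

namespace Pool.Agent.SGG

theorem KCT (hPPF : PPF_stmt) (hHYC : HYC_stmt) (hKNB : KNB_stmt) : KCT_stmt := by
  intro t ht0 ht1 u hu
  obtain ⟨hP1, -, -, hPc, hPs⟩ := hPPF
  obtain ⟨hc0, -, hcb, -, -, -, -⟩ := hHYC
  intro x₀ hx₀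
  have hx₀' : ‖x₀‖ < 1 := by simpa using hx₀
  obtain ⟨ρ, hρ1, hρ2⟩ := exists_between hx₀'
  have hρ0 : 0 ≤ ρ := (norm_nonneg x₀).trans hρ1.le
  obtain ⟨σ, hσ0, hσ1, hσ⟩ := hPs t ρ ht0 hρ0 hρ2
  have hae : ∀ᵐ y ∂hyp, y ∈ ball (0 : ℂ) 1 := by
    rw [ae_iff]
    exact hc0
  have hsub : closedBall (0 : ℂ) σ ⊆ ball (0 : ℂ) 1 := closedBall_subset_ball hσ1
  obtain ⟨B, hB⟩ := (isCompact_closedBall (0 : ℂ) σ).exists_bound_of_continuousOn (hu.mono hsub)
  have hB0 : 0 ≤ B := (norm_nonneg _).trans (hB 0 (mem_closedBall_self hσ0))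
  have hnear : ∀ᶠ x in 𝓝 x₀, x ∈ ball (0 : ℂ) ρ := isOpen_ball.mem_nhds (by simpa using hρ1)
  have hmain : ContinuousAt (fun x => ∫ y, ker t x y * u y ∂hyp) x₀ := by
    refine continuousAt_of_dominated (bound := (closedBall (0 : ℂ) σ).indicator fun _ => B)
      ?_ ?_ ?_ ?_
    · filter_upwards [hnear] with x hx
      have hx1 : x ∈ ball (0 : ℂ) 1 := ball_subset_ball hρ2.le hx
      exact (((hKNB t ht0 ht1).2 x hx1).2.2 u hu).aestronglyMeasurable
    · filter_upwards [hnear] with x hx
      have hx1 : x ∈ ball (0 : ℂ) 1 := ball_subset_ball hρ2.le hx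
      have hxρ : ‖x‖ ≤ ρ := by
        have : ‖x‖ < ρ := by simpa using hx
        exact this.le
      filter_upwards [hae] with y hy
      have hy1 : ‖y‖ < 1 := by simpa using hy
      by_cases hyσ : y ∈ closedBall (0 : ℂ) σ
      · rw [indicator_of_mem hyσ, norm_mul]
        have h1 : ‖ker t x y‖ ≤ 1 := by
          unfold ker
          rw [Real.norm_of_nonneg (le_max_left _ _)]
          exact max_le zero_le_one (by linarith [(hP1 x hx1 y hy).2.1])
        calc ‖ker t x y‖ * ‖u y‖ ≤ 1 * B :=
              mul_le_mul h1 (hB y hyσ) (norm_nonneg _) zero_le_one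
          _ = B := one_mul B
      · rw [indicator_of_notMem hyσ]
        have h1 : ker t x y = 0 := by
          unfold ker
          refine max_eq_left ?_
          by_contra hcon
          apply hyσ
          have := hσ x y hxρ hy1 (by linarith [not_le.1 hcon])
          simpa using this
        rw [h1, zero_mul, norm_zero]
    · rw [integrable_indicator_iff isClosed_closedBall.measurableSet]
      exact integrableOn_const (hcb σ hσ1).ne
    · filter_upwards [hae] with y hy
      have hpair : (x₀, y) ∈ ball (0 : ℂ) 1 ×ˢ ball (0 : ℂ) 1 := ⟨hx₀, hy⟩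
      have h1 : ContinuousAt (fun q : ℂ × ℂ => pp q.1 q.2) (x₀, y) :=
        hPc.continuousAt ((isOpen_ball.prod isOpen_ball).mem_nhds hpair)
      have h2 : ContinuousAt (fun x : ℂ => pp x y) x₀ :=
        ContinuousAt.comp (g := fun q : ℂ × ℂ => pp q.1 q.2) (f := fun x : ℂ => (x, y)) h1
          (by fun_prop)
      have h3 : ContinuousAt (fun x : ℂ => ker t x y) x₀ := by
        unfold ker
        exact continuousAt_const.max (h2.sub continuousAt_const)
      exact h3.mul continuousAt_const
  exact (continuousAt_const.mul hmain).continuousWithinAt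

end Pool.Agent.SGG
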